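import Pool.Agent.PAG.Seq

/-!
The undetermined game: the moves are elements of a set `H` closed under adjoining elements, every
move has to contain the previous one properly, the first player who does not obey loses; if
both obey, player I wins iff the set of all moves lies in the flip set `F`.
-/

universe u

namespace Pool.Agent.PAG

open Pool.Agent.H78 Pool.Agent.H78.ZF

variable {M : Type u} [ZFM M] {ι : Type}

/-- Proper inclusion. -/
def ssub (x y : M) : Prop := x ⊆ y ∧ x ≠ y

instance DR.ssub (s t : (ι → M) → M) [DF s] [DF t] : DR (fun v => ssub (s v) (t v)) := by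
  unfold PAG.ssub
  infer_instance

theorem ssub_trans {x y z : M} (h : ssub x y) (h' : ssub y z) : ssub x z := by
  refine ⟨sub_trans h.1 h'.1, ?_⟩
  rintro rfl
  exact h.2 (sub_antisymm h.1 h'.1)

theorem ssub_irrefl (x : M) : ¬ ssub x x := fun h => h.2 rfl

theorem ssub_succ (x : M) : ssub x (succ x) := by
  refine ⟨fun z hz => by rw [mem_succ]; left; exact hz, fun e => ?_⟩
  have : x ∈ succ x := by simp
  rw [← e] at this
  exact not_mem_self x this

/-- The set of all moves of a run: `p` lists the moves of player I, `q` those of player II. -/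
noncomputable def moves (H p q : M) : M :=
  sep H (fun y => ∃ n, n ∈ (omega : M) ∧ (y = ap p n ∨ y = ap q n))

instance DF.moves (H p q : (ι → M) → M) [DF H] [DF p] [DF q] :
    DF (fun v => moves (H v) (p v) (q v)) := by
  unfold PAG.moves
  infer_instance

theorem mem_moves {H p q y : M} : y ∈ moves H p q ↔
    y ∈ H ∧ ∃ n, n ∈ (omega : M) ∧ (y = ap p n ∨ y = ap q n) := by
  unfold moves
  rw [mem_sep]

/-- Player I wins the run `p 0, q 0, p 1, q 1, ...`. -/
def IWins (H : M) (F : M → Prop) (p q : M) : Prop :=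
  ((∀ n, n ∈ (omega : M) → ssub (ap p n) (ap q n) ∧ ssub (ap q n) (ap p (succ n))) ∧
    F (moves H p q)) ∨
  ∃ k, k ∈ (omega : M) ∧ ¬ ssub (ap p k) (ap q k) ∧
    ∀ j, j ∈ k → ssub (ap p j) (ap q j) ∧ ssub (ap q j) (ap p (succ j))

/-- `s` is a winning strategy of player I. -/
def StratI (H : M) (F : M → Prop) (s : M) : Prop :=
  Fun s H H ∧ ∀ p q, Fun p omega H → Fun q omega H →
    (∀ n, n ∈ (omega : M) → ap p n = ap s (res q n)) → IWins H F p q

/-- `s` is a winning strategy of player II. -/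
def StratII (H : M) (F : M → Prop) (s : M) : Prop :=
  Fun s H H ∧ ∀ p q, Fun p omega H → Fun q omega H →
    (∀ n, n ∈ (omega : M) → ap q n = ap s (res p (succ n))) → ¬ IWins H F p q

section
variable {H p q : M} {F : M → Prop}

/-- If player II is legal up to `n` and player I wins, then the answers of I are legal. -/
theorem I_legal (h : IWins H F p q) {n : M} (hn : n ∈ (omega : M))
    (hl : ∀ j, j ∈ succ n → ssub (ap p j) (ap q j)) :
    ∀ j, j ∈ succ n → ssub (ap q j) (ap p (succ j)) := by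
  intro j hj
  have hsn := succ_mem_omega hn
  rcases h with ⟨h, _⟩ | ⟨k, hk, h1, h2⟩
  · exact (h j (mem_omega_of_mem hj hsn)).2
  · have hkn : ¬ k ∈ succ n := fun hk' => h1 (hl k hk')
    have : succ n ⊆ k := (not_lt hsn hk).1 hkn
    exact (h2 j (this j hj)).2

/-- If player I is legal before `n` and player I does not win, then II is legal up to `n`. -/
theorem II_legal (h : ¬ IWins H F p q) {n : M} (hn : n ∈ (omega : M))
    (hl : ∀ j, j ∈ n → ssub (ap q j) (ap p (succ j))) :
    ∀ j, j ∈ succ n → ssub (ap p j) (ap q j) := by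
  intro j hj
  by_contra hc
  have hsn := succ_mem_omega hn
  obtain ⟨k, hk, ⟨hk1, hk2⟩, hk3⟩ := exists_least
    (fun k => k ∈ succ n ∧ ¬ ssub (ap p k) (ap q k)) ⟨j, mem_omega_of_mem hj hsn, hj, hc⟩
  apply h
  right
  refine ⟨k, hk, hk2, fun i hi => ?_⟩
  have hkn : k ⊆ n := (lt_succ_iff hk hn).1 hk1
  constructor
  · by_contra h'
    exact hk3 i hi ⟨lt_trans hsn hi hk1, h'⟩
  · exact hl i (hkn i hi)

/-- The moves of player I replaced at the first place. -/
noncomputable def rep (H b v : M) : M := sep (prod omega H)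
  (fun z => z = opair emp b ∨ ∃ i x, i ≠ emp ∧ z = opair i x ∧ opair i x ∈ v)

instance DF.rep (H b p : (ι → M) → M) [DF H] [DF b] [DF p] :
    DF (fun v => rep (H v) (b v) (p v)) := by
  unfold PAG.rep
  infer_instance

/-- The sequence `v` with one new element in front. -/
noncomputable def shift (H c v : M) : M := sep (prod omega H)
  (fun z => z = opair emp c ∨ ∃ i x, z = opair (succ i) x ∧ opair i x ∈ v)

instance DF.shift (H b p : (ι → M) → M) [DF H] [DF b] [DF p] :
    DF (fun v => shift (H v) (b v) (p v)) := by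
  unfold PAG.shift
  infer_instance

theorem opair_mem_rep {b v i x : M} : opair i x ∈ rep H b v ↔
    (i ∈ (omega : M) ∧ x ∈ H) ∧ ((i = emp ∧ x = b) ∨ (i ≠ emp ∧ opair i x ∈ v)) := by
  unfold rep
  rw [mem_sep, opair_mem_prod, opair_eq_iff]
  constructor
  · rintro ⟨h, h1 | ⟨j, y, hj, e, h2⟩⟩
    · exact ⟨h, Or.inl h1⟩
    · obtain ⟨rfl, rfl⟩ := opair_inj e
      exact ⟨h, Or.inr ⟨hj, h2⟩⟩
  · rintro ⟨h, h1 | ⟨hj, h2⟩⟩
    · exact ⟨h, Or.inl h1⟩
    · exact ⟨h, Or.inr ⟨i, x, hj, rfl, h2⟩⟩

theorem opair_mem_shift {b v i x : M} : opair i x ∈ shift H b v ↔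
    (i ∈ (omega : M) ∧ x ∈ H) ∧ ((i = emp ∧ x = b) ∨ (∃ j, i = succ j ∧ opair j x ∈ v)) := by
  unfold shift
  rw [mem_sep, opair_mem_prod, opair_eq_iff]
  constructor
  · rintro ⟨h, h1 | ⟨j, y, e, h2⟩⟩
    · exact ⟨h, Or.inl h1⟩
    · obtain ⟨rfl, rfl⟩ := opair_inj e
      exact ⟨h, Or.inr ⟨j, rfl, h2⟩⟩
  · rintro ⟨h, h1 | ⟨j, hj, h2⟩⟩
    · exact ⟨h, Or.inl h1⟩
    · subst hj
      exact ⟨h, Or.inr ⟨j, x, rfl, h2⟩⟩

theorem mem_prod_of_rep {b v z : M} (hz : z ∈ rep H b v) : z ∈ prod omega H := by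
  unfold rep at hz
  rw [mem_sep] at hz
  exact hz.1

theorem mem_prod_of_shift {b v z : M} (hz : z ∈ shift H b v) : z ∈ prod omega H := by
  unfold shift at hz
  rw [mem_sep] at hz
  exact hz.1

theorem rep_fun {b v : M} (hb : b ∈ H) (hv : Fun v omega H) : Fun (rep H b v) omega H := by
  constructor
  · intro z hz
    have := mem_prod_of_rep hz
    rwa [mem_prod] at this
  · intro i hi
    by_cases h0 : i = emp
    · subst h0
      refine ⟨b, ?_, ?_⟩
      · show opair emp b ∈ _
        rw [opair_mem_rep]; exact ⟨⟨hi, hb⟩, Or.inl ⟨rfl, rfl⟩⟩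
      · intro y hy
        change opair emp y ∈ _ at hy
        rw [opair_mem_rep] at hy
        rcases hy.2 with h | h
        · exact h.2
        · exact absurd rfl h.1
    · refine ⟨ap v i, ?_, ?_⟩
      · show opair i (ap v i) ∈ _
        rw [opair_mem_rep]; exact ⟨⟨hi, hv.ap_mem hi⟩, Or.inr ⟨h0, hv.opair_ap hi⟩⟩
      · intro y hy
        change opair i y ∈ _ at hy
        rw [opair_mem_rep] at hy
        rcases hy.2 with h | h
        · exact absurd h.1 h0
        · exact (hv.opair_iff.1 h.2).2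

theorem ap_rep_emp {b v : M} (hb : b ∈ H) (hv : Fun v omega H) : ap (rep H b v) emp = b :=
  (rep_fun hb hv).ap_eq (by
    rw [opair_mem_rep]; exact ⟨⟨emp_mem_omega, hb⟩, Or.inl ⟨rfl, rfl⟩⟩)

theorem ap_rep {b v i : M} (hb : b ∈ H) (hv : Fun v omega H) (hi : i ∈ (omega : M))
    (h0 : i ≠ emp) : ap (rep H b v) i = ap v i :=
  (rep_fun hb hv).ap_eq (by
    rw [opair_mem_rep]; exact ⟨⟨hi, hv.ap_mem hi⟩, Or.inr ⟨h0, hv.opair_ap hi⟩⟩)

theorem shift_fun {b v : M} (hb : b ∈ H) (hv : Fun v omega H) : Fun (shift H b v) omega H := by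
  constructor
  · intro z hz
    have := mem_prod_of_shift hz
    rwa [mem_prod] at this
  · intro i hi
    rcases eq_emp_or_succ hi with rfl | ⟨j, hj, rfl⟩
    · refine ⟨b, ?_, ?_⟩
      · show opair emp b ∈ _
        rw [opair_mem_shift]; exact ⟨⟨hi, hb⟩, Or.inl ⟨rfl, rfl⟩⟩
      · intro y hy
        change opair emp y ∈ _ at hy
        rw [opair_mem_shift] at hy
        rcases hy.2 with h | ⟨j, h, _⟩
        · exact h.2
        · exact absurd h.symm (succ_ne_emp j)
    · refine ⟨ap v j, ?_, ?_⟩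
      · show opair (succ j) (ap v j) ∈ _
        rw [opair_mem_shift]; exact ⟨⟨hi, hv.ap_mem hj⟩, Or.inr ⟨j, rfl, hv.opair_ap hj⟩⟩
      · intro y hy
        change opair (succ j) y ∈ _ at hy
        rw [opair_mem_shift] at hy
        rcases hy.2 with h | ⟨k, h, h'⟩
        · exact absurd h.1 (succ_ne_emp j)
        · have hk := (hv.mem_of_opair h').1
          rw [← succ_inj hj hk h] at h'
          exact (hv.opair_iff.1 h').2

theorem ap_shift_emp {b v : M} (hb : b ∈ H) (hv : Fun v omega H) : ap (shift H b v) emp = b :=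
  (shift_fun hb hv).ap_eq (by
    rw [opair_mem_shift]; exact ⟨⟨emp_mem_omega, hb⟩, Or.inl ⟨rfl, rfl⟩⟩)

theorem ap_shift {b v i : M} (hb : b ∈ H) (hv : Fun v omega H) (hi : i ∈ (omega : M)) :
    ap (shift H b v) (succ i) = ap v i :=
  (shift_fun hb hv).ap_eq (by
    rw [opair_mem_shift]
    exact ⟨⟨succ_mem_omega hi, hv.ap_mem hi⟩, Or.inr ⟨i, rfl, hv.opair_ap hi⟩⟩)

theorem res_rep {b v n : M} (hn : n ∈ (omega : M)) :
    res (rep H b v) (succ n) = rep H b (res v (succ n)) := by
  apply ZF.ext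
  intro z
  constructor
  · intro hz
    rw [mem_res] at hz
    obtain ⟨hz, i, hi, y, rfl⟩ := hz
    rw [opair_mem_rep] at hz ⊢
    rw [opair_mem_res]
    exact ⟨hz.1, hz.2.imp id (fun h => ⟨h.1, h.2, hi⟩)⟩
  · intro hz
    have := mem_prod_of_rep hz
    rw [mem_prod] at this
    obtain ⟨i, hi, y, hy, rfl⟩ := this
    rw [opair_mem_rep, opair_mem_res] at hz
    rw [opair_mem_res, opair_mem_rep]
    rcases hz.2 with ⟨rfl, rfl⟩ | h
    · refine ⟨⟨hz.1, Or.inl ⟨rfl, rfl⟩⟩, ?_⟩
      exact (eq_emp_or_emp_mem (succ_mem_omega hn)).resolve_left (succ_ne_emp n)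
    · exact ⟨⟨hz.1, Or.inr ⟨h.1, h.2.1⟩⟩, h.2.2⟩

theorem succ_mem_succ {i n : M} (hi : i ∈ (omega : M)) (hn : n ∈ (omega : M)) :
    succ i ∈ succ n ↔ i ∈ n := by
  rw [lt_succ_iff (succ_mem_omega hi) hn, succ_le_iff hn]

theorem res_shift {b v n : M} (hv : Fun v omega H) (hn : n ∈ (omega : M)) :
    res (shift H b v) (succ n) = shift H b (res v n) := by
  apply ZF.ext
  intro z
  constructor
  · intro hz
    rw [mem_res] at hz
    obtain ⟨hz, i, hi, y, rfl⟩ := hz
    rw [opair_mem_shift] at hz ⊢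
    refine ⟨hz.1, hz.2.imp id ?_⟩
    rintro ⟨j, rfl, h⟩
    refine ⟨j, rfl, ?_⟩
    rw [opair_mem_res]
    exact ⟨h, (succ_mem_succ (hv.mem_of_opair h).1 hn).1 hi⟩
  · intro hz
    have := mem_prod_of_shift hz
    rw [mem_prod] at this
    obtain ⟨i, hi, y, hy, rfl⟩ := this
    rw [opair_mem_shift] at hz
    rw [opair_mem_res, opair_mem_shift]
    rcases hz.2 with ⟨rfl, rfl⟩ | ⟨j, rfl, h⟩
    · refine ⟨⟨hz.1, Or.inl ⟨rfl, rfl⟩⟩, ?_⟩
      exact (eq_emp_or_emp_mem (succ_mem_omega hn)).resolve_left (succ_ne_emp n)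
    · rw [opair_mem_res] at h
      refine ⟨⟨hz.1, Or.inr ⟨j, rfl, h.1⟩⟩, ?_⟩
      exact (succ_mem_succ (hv.mem_of_opair h.1).1 hn).2 h.2

/-- Total version of a strategy: junk values are replaced by the empty set. -/
noncomputable def tot (H s u : M) : M :=
  iota (fun y => (ap s u ∈ H ∧ y = ap s u) ∨ (ap s u ∉ H ∧ y = emp))

instance DF.tot (H s u : (ι → M) → M) [DF H] [DF s] [DF u] :
    DF (fun v => tot (H v) (s v) (u v)) := by
  unfold PAG.tot
  infer_instance

theorem tot_mem (hH : InsClosed H) (s u : M) : tot H s u ∈ H := by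
  unfold tot
  by_cases h : ap s u ∈ H
  · rw [iota_eq (a := ap s u) (Or.inl ⟨h, rfl⟩)]
    · exact h
    · rintro x (hx | hx)
      · exact hx.2
      · exact absurd h hx.1
  · have : iota (fun y => (ap s u ∈ H ∧ y = ap s u) ∨ (ap s u ∉ H ∧ y = emp)) = emp := by
      refine iota_eq (P := fun y => (ap s u ∈ H ∧ y = ap s u) ∨ (ap s u ∉ H ∧ y = emp))
        (Or.inr ⟨h, rfl⟩) ?_
      rintro x (hx | hx)
      · exact absurd hx.1 h
      · exact hx.2
    rw [this]
    exact hH.1

theorem tot_eq {s u : M} (hs : Fun s H H) (hu : u ∈ H) : tot H s u = ap s u := by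
  have h := hs.ap_mem hu
  unfold tot
  rw [iota_eq (a := ap s u) (Or.inl ⟨h, rfl⟩)]
  rintro x (hx | hx)
  · exact hx.2
  · exact absurd h hx.1

end

/-- A flip set: adjoining one new element changes membership. -/
def Flips (H : M) (F : M → Prop) : Prop :=
  ∀ X, X ⊆ H → ∀ z, z ∈ H → z ∉ X → (F (ins X z) ↔ ¬ F X)

variable {H : M} {F : M → Prop}

theorem no_stratI (hH : InsClosed H) (hF : Flips H F) (s : M) : ¬ StratI H F s := by
  rintro ⟨hs, hw⟩
  obtain ⟨b, hb⟩ : ∃ b, b = succ (ap s (emp : M)) := ⟨_, rfl⟩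
  have hbH : b ∈ H := by rw [hb]; exact hH.succ (hs.ap_mem hH.1)
  obtain ⟨e, o, he, ho, heo⟩ := exists_play H (fun u => tot H s u) (fun u => tot H s (rep H b u))
    (fun u => tot_mem hH _ _) (fun u => tot_mem hH _ _)
  have hqA := rep_fun hbH he
  have hE : ∀ n, n ∈ (omega : M) → ap e n = ap s (res o n) := fun n hn => by
    rw [(heo n hn).1, tot_eq hs (res_mem hH ho hn)]
  have hO : ∀ n, n ∈ (omega : M) → ap o n = ap s (res (rep H b e) (succ n)) := fun n hn => by
    have h1 := (heo n hn).2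
    rw [← res_rep hn, tot_eq hs (res_mem hH hqA (succ_mem_omega hn))] at h1
    exact h1
  have he0 : ap e emp = ap s emp := by rw [hE emp emp_mem_omega, res_emp]
  have he0H : ap e emp ∈ H := he.ap_mem emp_mem_omega
  have hpA := shift_fun he0H ho
  -- run A
  have hA : IWins H F (shift H (ap e emp) o) (rep H b e) := by
    apply hw _ _ hpA hqA
    intro n hn
    rcases eq_emp_or_succ hn with rfl | ⟨j, hj, rfl⟩
    · rw [ap_shift_emp he0H ho, res_emp, he0]
    · rw [ap_shift he0H ho hj, hO j hj]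
  -- run B
  have hB : IWins H F e o := hw _ _ he ho hE
  have hbe : ssub (ap e emp) b := by rw [he0, hb]; exact ssub_succ _
  -- all moves are legal
  have key : ∀ n, n ∈ (omega : M) → ∀ j, j ∈ n →
      ssub (ap e j) (ap o j) ∧ ssub (ap o j) (ap e (succ j)) := by
    apply omega_induction (fun n => ∀ j, j ∈ n →
      ssub (ap e j) (ap o j) ∧ ssub (ap o j) (ap e (succ j)))
    · intro j hj; exact absurd hj (not_mem_emp j)
    · intro n hn ih j hj
      rw [mem_succ] at hj
      rcases hj with hj | rfl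
      · exact ih j hj
      · have h1 : ∀ i, i ∈ succ j → ssub (ap (shift H (ap e emp) o) i) (ap (rep H b e) i) := by
          intro i hi
          have hiω := mem_omega_of_mem hi (succ_mem_omega hn)
          rcases eq_emp_or_succ hiω with rfl | ⟨k, hk, rfl⟩
          · rw [ap_shift_emp he0H ho, ap_rep_emp hbH he]
            exact hbe
          · rw [ap_shift he0H ho hk, ap_rep hbH he hiω (succ_ne_emp k)]
            rw [succ_mem_succ hk hn] at hi
            exact (ih k hi).2
        have h2 := I_legal hA hn h1 j (by simp)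
        rw [ap_shift he0H ho hn] at h2
        have h3 : ssub (ap e j) (ap o j) := by
          rcases eq_emp_or_succ hn with rfl | ⟨k, hk, rfl⟩
          · rw [ap_rep_emp hbH he] at h2
            exact ssub_trans hbe h2
          · rw [ap_rep hbH he hn (succ_ne_emp k)] at h2
            exact h2
        refine ⟨h3, ?_⟩
        refine I_legal hB hn ?_ j (by simp)
        intro i hi
        rw [mem_succ] at hi
        rcases hi with hi | rfl
        · exact (ih i hi).1
        · exact h3
  have key' : ∀ n, n ∈ (omega : M) →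
      ssub (ap e n) (ap o n) ∧ ssub (ap o n) (ap e (succ n)) := fun n hn =>
    key (succ n) (succ_mem_omega hn) n (by simp)
  have hb0 : ssub b (ap o emp) := by
    have h1 : ∀ i, i ∈ succ (emp : M) →
        ssub (ap (shift H (ap e emp) o) i) (ap (rep H b e) i) := by
      intro i hi
      rw [mem_succ] at hi
      rcases hi with hi | rfl
      · exact absurd hi (not_mem_emp i)
      · rw [ap_shift_emp he0H ho, ap_rep_emp hbH he]
        exact hbe
    have h2 := I_legal hA emp_mem_omega h1 emp (by simp)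
    rwa [ap_shift he0H ho emp_mem_omega, ap_rep_emp hbH he] at h2
  -- both outcomes lie in F
  have hFB : F (moves H e o) := by
    rcases hB with h | ⟨k, hk, h1, _⟩
    · exact h.2
    · exact absurd (key' k hk).1 h1
  have hFA : F (moves H (shift H (ap e emp) o) (rep H b e)) := by
    rcases hA with h | ⟨k, hk, h1, _⟩
    · exact h.2
    · exfalso
      apply h1
      rcases eq_emp_or_succ hk with rfl | ⟨j, hj, rfl⟩
      · rw [ap_shift_emp he0H ho, ap_rep_emp hbH he]
        exact hbe
      · rw [ap_shift he0H ho hj, ap_rep hbH he hk (succ_ne_emp j)]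
        exact (key' j hj).2
  have hmv : moves H (shift H (ap e emp) o) (rep H b e) = ins (moves H e o) b := by
    apply ZF.ext
    intro y
    rw [mem_ins, mem_moves, mem_moves]
    constructor
    · rintro ⟨hy, n, hn, h⟩
      rcases eq_emp_or_succ hn with rfl | ⟨j, hj, rfl⟩
      · rw [ap_shift_emp he0H ho, ap_rep_emp hbH he] at h
        rcases h with h | h
        · left; exact ⟨hy, emp, hn, Or.inl h⟩
        · right; exact h
      · rw [ap_shift he0H ho hj, ap_rep hbH he hn (succ_ne_emp j)] at h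
        left
        rcases h with h | h
        · exact ⟨hy, j, hj, Or.inr h⟩
        · exact ⟨hy, succ j, hn, Or.inl h⟩
    · rintro (⟨hy, n, hn, h | h⟩ | rfl)
      · refine ⟨hy, n, hn, ?_⟩
        rcases eq_emp_or_succ hn with rfl | ⟨j, hj, rfl⟩
        · rw [ap_shift_emp he0H ho]; left; exact h
        · rw [ap_rep hbH he hn (succ_ne_emp j)]; right; exact h
      · refine ⟨hy, succ n, succ_mem_omega hn, ?_⟩
        rw [ap_shift he0H ho hn]; left; exact h
      · exact ⟨hbH, emp, emp_mem_omega, Or.inr (ap_rep_emp hbH he).symm⟩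
  have hlt : ∀ n, n ∈ (omega : M) → ssub b (ap o n) := by
    apply omega_induction (fun n => ssub b (ap o n))
    · exact hb0
    · intro n hn ih
      exact ssub_trans (ssub_trans ih (key' n hn).2) (key' (succ n) (succ_mem_omega hn)).1
  have hbn : b ∉ moves H e o := by
    rw [mem_moves]
    rintro ⟨_, n, hn, h | h⟩
    · rcases eq_emp_or_succ hn with rfl | ⟨j, hj, rfl⟩
      · exact hbe.2 h.symm
      · exact (ssub_trans (hlt j hj) (key' j hj).2).2 h
    · exact (hlt n hn).2 h
  have hsub : moves H e o ⊆ H := fun y hy => (mem_moves.1 hy).1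
  rw [hmv, hF _ hsub b hbH hbn] at hFA
  exact hFA hFB

theorem no_stratII (hH : InsClosed H) (hF : Flips H F) (s : M) : ¬ StratII H F s := by
  rintro ⟨hs, hw⟩
  obtain ⟨c, hc⟩ : ∃ c : M, c = emp := ⟨_, rfl⟩
  have hcH : c ∈ H := by rw [hc]; exact hH.1
  obtain ⟨e, o, he, ho, heo⟩ := exists_play H (fun u => tot H s (shift H c u))
    (fun u => tot H s u) (fun u => tot_mem hH _ _) (fun u => tot_mem hH _ _)
  have hpA := shift_fun hcH ho
  have hE : ∀ n, n ∈ (omega : M) → ap e n = ap s (res (shift H c o) (succ n)) := fun n hn => by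
    have h1 := (heo n hn).1
    rw [← res_shift ho hn, tot_eq hs (res_mem hH hpA (succ_mem_omega hn))] at h1
    exact h1
  have hO : ∀ n, n ∈ (omega : M) → ap o n = ap s (res e (succ n)) := fun n hn => by
    rw [(heo n hn).2, tot_eq hs (res_mem hH he (succ_mem_omega hn))]
  have hA : ¬ IWins H F (shift H c o) e := hw _ _ hpA he hE
  have hB : ¬ IWins H F e o := hw _ _ he ho hO
  have hc0 : ssub c (ap e emp) := by
    have := II_legal hA emp_mem_omega (fun j hj => absurd hj (not_mem_emp j)) emp (by simp)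
    rwa [ap_shift_emp hcH ho] at this
  have key : ∀ n, n ∈ (omega : M) → ∀ j, j ∈ n →
      ssub (ap e j) (ap o j) ∧ ssub (ap o j) (ap e (succ j)) := by
    apply omega_induction (fun n => ∀ j, j ∈ n →
      ssub (ap e j) (ap o j) ∧ ssub (ap o j) (ap e (succ j)))
    · intro j hj; exact absurd hj (not_mem_emp j)
    · intro n hn ih j hj
      rw [mem_succ] at hj
      rcases hj with hj | rfl
      · exact ih j hj
      · have h1 : ssub (ap e j) (ap o j) :=
          II_legal hB hn (fun i hi => (ih i hi).2) j (by simp)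
        refine ⟨h1, ?_⟩
        have h2 := II_legal hA (succ_mem_omega hn) (fun i hi => ?_) (succ j) (by simp)
        · rwa [ap_shift hcH ho hn] at h2
        · rw [ap_shift hcH ho (mem_omega_of_mem hi (succ_mem_omega hn))]
          rw [mem_succ] at hi
          rcases hi with hi | rfl
          · exact (ih i hi).1
          · exact h1
  have key' : ∀ n, n ∈ (omega : M) →
      ssub (ap e n) (ap o n) ∧ ssub (ap o n) (ap e (succ n)) := fun n hn =>
    key (succ n) (succ_mem_omega hn) n (by simp)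
  have hFB : ¬ F (moves H e o) := fun h => hB (Or.inl ⟨key', h⟩)
  have hFA : ¬ F (moves H (shift H c o) e) := by
    intro h
    apply hA
    left
    refine ⟨fun n hn => ?_, h⟩
    constructor
    · rcases eq_emp_or_succ hn with rfl | ⟨j, hj, rfl⟩
      · rw [ap_shift_emp hcH ho]; exact hc0
      · rw [ap_shift hcH ho hj]; exact (key' j hj).2
    · rw [ap_shift hcH ho hn]; exact (key' n hn).1
  have hmv : moves H (shift H c o) e = ins (moves H e o) c := by
    apply ZF.ext
    intro y
    rw [mem_ins, mem_moves, mem_moves]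
    constructor
    · rintro ⟨hy, n, hn, h | h⟩
      · rcases eq_emp_or_succ hn with rfl | ⟨j, hj, rfl⟩
        · rw [ap_shift_emp hcH ho] at h
          right; exact h
        · rw [ap_shift hcH ho hj] at h
          left; exact ⟨hy, j, hj, Or.inr h⟩
      · left; exact ⟨hy, n, hn, Or.inl h⟩
    · rintro (⟨hy, n, hn, h | h⟩ | rfl)
      · exact ⟨hy, n, hn, Or.inr h⟩
      · refine ⟨hy, succ n, succ_mem_omega hn, Or.inl ?_⟩
        rw [ap_shift hcH ho hn]; exact h
      · exact ⟨hcH, emp, emp_mem_omega, Or.inl (ap_shift_emp hcH ho).symm⟩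
  have hlt : ∀ n, n ∈ (omega : M) → ssub c (ap e n) := by
    apply omega_induction (fun n => ssub c (ap e n))
    · exact hc0
    · intro n hn ih
      exact ssub_trans (ssub_trans ih (key' n hn).1) (key' n hn).2
  have hcn : c ∉ moves H e o := by
    rw [mem_moves]
    rintro ⟨_, n, hn, h | h⟩
    · exact (hlt n hn).2 h
    · exact (ssub_trans (hlt n hn) (key' n hn).1).2 h
  have hsub : moves H e o ⊆ H := fun y hy => (mem_moves.1 hy).1
  have := (hF _ hsub c hcH hcn).2 hFB
  rw [← hmv] at this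
  exact hFA this

end Pool.Agent.PAG
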