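import Pool.Agent.H78.ZF.Rec

/-!
Sequences in a model of ZF: restriction, sets closed under adjoining elements, course of values
recursion on omega, the run in which two strategies play against each other.
-/

universe u

namespace Pool.Agent.PAG

open Pool.Agent.H78 Pool.Agent.H78.ZF

variable {M : Type u} [ZFM M] {ι : Type}

/-- A set that contains the empty set and is closed under adjoining an element. -/
def InsClosed (H : M) : Prop := emp ∈ H ∧ ∀ x, x ∈ H → ∀ y, y ∈ H → ins x y ∈ H

section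
variable {H x y : M}

theorem InsClosed.sing (hH : InsClosed H) (hx : x ∈ H) : ZF.sing x ∈ H := by
  have : ZF.sing x = ins emp x := ext fun z => by simp
  rw [this]
  exact hH.2 _ hH.1 _ hx

theorem InsClosed.upair (hH : InsClosed H) (hx : x ∈ H) (hy : y ∈ H) : ZF.upair x y ∈ H := by
  have : ZF.upair x y = ins (ZF.sing x) y := ext fun z => by simp
  rw [this]
  exact hH.2 _ (hH.sing hx) _ hy

theorem InsClosed.opair (hH : InsClosed H) (hx : x ∈ H) (hy : y ∈ H) : ZF.opair x y ∈ H :=
  hH.upair (hH.sing hx) (hH.upair hx hy)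

theorem InsClosed.succ (hH : InsClosed H) (hx : x ∈ H) : ZF.succ x ∈ H := hH.2 _ hx _ hx

theorem InsClosed.omega_mem (hH : InsClosed H) : ∀ n, n ∈ (omega : M) → n ∈ H := by
  apply omega_induction (fun n => n ∈ H)
  · exact hH.1
  · intro n _ h
    exact hH.succ h

end

/-- The restriction of a sequence to the indices in `n`. -/
noncomputable def res (p n : M) : M := sep p (fun z => ∃ i, i ∈ n ∧ ∃ y, z = opair i y)

instance DF.res (p n : (ι → M) → M) [DF p] [DF n] : DF (fun v => res (p v) (n v)) := by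
  unfold PAG.res
  infer_instance

theorem opair_mem_res {p n i y : M} : opair i y ∈ res p n ↔ opair i y ∈ p ∧ i ∈ n := by
  unfold res
  rw [mem_sep]
  constructor
  · rintro ⟨h, j, hj, z, e⟩
    obtain ⟨rfl, rfl⟩ := opair_inj e
    exact ⟨h, hj⟩
  · rintro ⟨h, hj⟩
    exact ⟨h, i, hj, y, rfl⟩

theorem mem_res {p n z : M} : z ∈ res p n ↔ z ∈ p ∧ ∃ i, i ∈ n ∧ ∃ y, z = opair i y := by
  unfold res
  rw [mem_sep]

@[simp] theorem res_emp (p : M) : res p emp = emp := by
  apply eq_emp
  intro z hz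
  rw [mem_res] at hz
  obtain ⟨_, i, hi, _⟩ := hz
  exact not_mem_emp i hi

theorem res_succ {p B n : M} (hp : Fun p omega B) (hn : n ∈ (omega : M)) :
    res p (succ n) = ins (res p n) (opair n (ap p n)) := by
  apply ZF.ext
  intro z
  rw [mem_ins, mem_res, mem_res]
  constructor
  · rintro ⟨hz, i, hi, y, rfl⟩
    rw [mem_succ] at hi
    rcases hi with hi | rfl
    · left; exact ⟨hz, i, hi, y, rfl⟩
    · right
      rw [hp.opair_iff] at hz
      rw [hz.2]
  · rintro (⟨hz, i, hi, y, rfl⟩ | rfl)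
    · refine ⟨hz, i, ?_, y, rfl⟩
      rw [mem_succ]; left; exact hi
    · refine ⟨hp.opair_ap hn, n, ?_, _, rfl⟩
      rw [mem_succ]; right; rfl

theorem res_fun {p B n : M} (hp : Fun p omega B) (hn : n ∈ (omega : M)) : Fun (res p n) n B := by
  constructor
  · intro z hz
    rw [mem_res] at hz
    obtain ⟨hz, i, hi, y, rfl⟩ := hz
    exact ⟨i, hi, y, (hp.mem_of_opair hz).2, rfl⟩
  · intro i hi
    have hi' := mem_omega_of_mem hi hn
    refine ⟨ap p i, ?_, ?_⟩
    · show opair i (ap p i) ∈ res p n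
      rw [opair_mem_res]
      exact ⟨hp.opair_ap hi', hi⟩
    · intro y hy
      rw [opair_mem_res, hp.opair_iff] at hy
      exact hy.1.2

theorem res_mem {H p n : M} (hH : InsClosed H) (hp : Fun p omega H) (hn : n ∈ (omega : M)) :
    res p n ∈ H := by
  apply omega_induction (fun n => res p n ∈ H) _ _ n hn
  · rw [res_emp]; exact hH.1
  · intro n hn ih
    rw [res_succ hp hn]
    exact hH.2 _ ih _ (hH.opair (hH.omega_mem n hn) (hp.ap_mem hn))

/-- The set of indices of a sequence. -/
noncomputable def dom (u : M) : M := sep omega (fun i => ∃ y, opair i y ∈ u)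

instance DF.dom (s : (ι → M) → M) [DF s] : DF (fun v => dom (s v)) := by
  unfold PAG.dom
  infer_instance

theorem dom_eq {u n B : M} (hn : n ∈ (omega : M)) (hu : Fun u n B) : dom u = n := by
  apply ZF.ext
  intro i
  unfold dom
  rw [mem_sep]
  constructor
  · rintro ⟨_, y, hy⟩
    exact (hu.mem_of_opair hy).1
  · intro hi
    exact ⟨mem_omega_of_mem hi hn, _, hu.opair_ap hi⟩

theorem fun_ins {u n B b : M} (hn : n ∈ (omega : M)) (hu : Fun u n B) (hb : b ∈ B) :
    Fun (ins u (opair n b)) (succ n) B := by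
  constructor
  · intro z hz
    rw [mem_ins] at hz
    rcases hz with hz | rfl
    · obtain ⟨i, hi, y, hy, rfl⟩ := hu.1 z hz
      exact ⟨i, by rw [mem_succ]; left; exact hi, y, hy, rfl⟩
    · exact ⟨n, by simp, b, hb, rfl⟩
  · intro i hi
    rw [mem_succ] at hi
    rcases hi with hi | rfl
    · refine ⟨ap u i, ?_, ?_⟩
      · show opair i (ap u i) ∈ ins u (opair n b)
        rw [mem_ins]
        left
        exact hu.opair_ap hi
      · intro y hy
        change opair i y ∈ ins u (opair n b) at hy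
        rw [mem_ins] at hy
        rcases hy with hy | hy
        · rw [hu.opair_iff] at hy
          exact hy.2
        · have := (opair_inj hy).1
          rw [this] at hi
          exact absurd hi (not_mem_self n)
    · refine ⟨b, ?_, ?_⟩
      · show opair i b ∈ ins u (opair i b)
        simp
      · intro y hy
        change opair i y ∈ ins u (opair i b) at hy
        rw [mem_ins] at hy
        rcases hy with hy | hy
        · exact absurd (hu.mem_of_opair hy).1 (not_mem_self i)
        · exact (opair_inj hy).2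

theorem fun_emp (B : M) : Fun emp (emp : M) B :=
  ⟨fun p hp => absurd hp (not_mem_emp p), fun x hx => absurd hx (not_mem_emp x)⟩

/-- Course of values recursion on omega. -/
theorem exists_cov (B : M) (G : M → M) [F1 G] (hG : ∀ u, G u ∈ B) :
    ∃ f : M, Fun f omega B ∧ ∀ n, n ∈ (omega : M) → ap f n = G (res f n) := by
  obtain ⟨Z, hZ⟩ : ∃ Z : M, ∀ u, u ∈ Z ↔ ∃ n, n ∈ (omega : M) ∧ Fun u n B := by
    refine ⟨sep (pow (prod omega B)) (fun u => ∃ n, n ∈ (omega : M) ∧ Fun u n B), fun u => ?_⟩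
    rw [mem_sep, mem_pow]
    constructor
    · exact fun h => h.2
    · rintro ⟨n, hn, hu⟩
      refine ⟨?_, n, hn, hu⟩
      intro z hz
      obtain ⟨i, hi, y, hy, rfl⟩ := hu.1 z hz
      rw [opair_mem_prod]
      exact ⟨mem_omega_of_mem hi hn, hy⟩
  have hstep : ∀ u, u ∈ Z → ins u (opair (dom u) (G u)) ∈ Z := by
    intro u hu
    obtain ⟨n, hn, hu⟩ := (hZ u).1 hu
    rw [dom_eq hn hu, hZ]
    exact ⟨succ n, succ_mem_omega hn, fun_ins hn hu (hG u)⟩
  have hz0 : emp ∈ Z := (hZ _).2 ⟨emp, emp_mem_omega, fun_emp B⟩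
  have hg : Fun (mkf Z Z (fun u => ins u (opair (dom u) (G u)))) Z Z := mkf_fun hstep
  set F := recf Z emp (mkf Z Z (fun u => ins u (opair (dom u) (G u)))) with hF
  have hFf : Fun F omega Z := recf_fun hz0 hg
  have hF0 : ap F emp = emp := recf_zero hz0 hg
  have hFs : ∀ n, n ∈ (omega : M) → ap F (succ n) =
      ins (ap F n) (opair (dom (ap F n)) (G (ap F n))) := by
    intro n hn
    rw [hF, recf_succ hz0 hg hn, ap_mkf hstep (hFf.ap_mem hn)]
  have hFn : ∀ n, n ∈ (omega : M) → Fun (ap F n) n B := by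
    apply omega_induction (fun n => Fun (ap F n) n B)
    · rw [hF0]; exact fun_emp B
    · intro n hn ih
      rw [hFs n hn, dom_eq hn ih]
      exact fun_ins hn ih (hG _)
  have hval : ∀ n, n ∈ (omega : M) → G (ap F n) ∈ B := fun n _ => hG _
  set f := mkf omega B (fun n => G (ap F n)) with hf
  have hff : Fun f omega B := mkf_fun hval
  have hres : ∀ n, n ∈ (omega : M) → res f n = ap F n := by
    apply omega_induction (fun n => res f n = ap F n)
    · rw [res_emp, hF0]
    · intro n hn ih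
      rw [res_succ hff hn, hFs n hn, ih, dom_eq hn (hFn n hn), hf, ap_mkf hval hn]
  refine ⟨f, hff, fun n hn => ?_⟩
  rw [hres n hn, hf, ap_mkf hval hn]

/-- First coordinate. -/
noncomputable def fst (z : M) : M := iota (fun x => ∃ y, z = opair x y)

instance DF.fst (s : (ι → M) → M) [DF s] : DF (fun v => fst (s v)) := by
  unfold PAG.fst
  infer_instance

@[simp] theorem fst_opair (x y : M) : fst (opair x y) = x := by
  unfold fst
  apply iota_eq ⟨y, rfl⟩
  rintro x' ⟨y', e⟩
  exact (opair_inj e).1.symm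

/-- Second coordinate. -/
noncomputable def snd (z : M) : M := iota (fun y => ∃ x, z = opair x y)

instance DF.snd (s : (ι → M) → M) [DF s] : DF (fun v => snd (s v)) := by
  unfold PAG.snd
  infer_instance

@[simp] theorem snd_opair (x y : M) : snd (opair x y) = y := by
  unfold snd
  apply iota_eq ⟨x, rfl⟩
  rintro y' ⟨x', e⟩
  exact (opair_inj e).2.symm

/-- Two strategies against each other: `G1` answers the opponent's moves so far, `G2` answers the
opponent's moves including the last one. -/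
theorem exists_play (B : M) (G1 G2 : M → M) [F1 G1] [F1 G2] (h1 : ∀ u, G1 u ∈ B)
    (h2 : ∀ u, G2 u ∈ B) :
    ∃ e o : M, Fun e omega B ∧ Fun o omega B ∧
      ∀ n, n ∈ (omega : M) → ap e n = G1 (res o n) ∧ ap o n = G2 (res e (succ n)) := by
  obtain ⟨fs, hfs⟩ : ∃ fs : M → M, fs = fun u => sep (prod omega B)
      (fun z => ∃ i x y, z = opair i x ∧ opair i (opair x y) ∈ u) := ⟨_, rfl⟩
  obtain ⟨ss, hss⟩ : ∃ ss : M → M, ss = fun u => sep (prod omega B)
      (fun z => ∃ i x y, z = opair i y ∧ opair i (opair x y) ∈ u) := ⟨_, rfl⟩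
  have ifs : F1 fs := by rw [hfs]; infer_instance
  have iss : F1 ss := by rw [hss]; infer_instance
  obtain ⟨G, hG⟩ : ∃ G : M → M, G = fun u => opair (G1 (ss u))
      (G2 (ins (fs u) (opair (dom u) (G1 (ss u))))) := ⟨_, rfl⟩
  have iG : F1 G := by rw [hG]; infer_instance
  obtain ⟨f, hf, hf'⟩ := exists_cov (prod B B) G (by
    intro u; rw [hG]; simp only [opair_mem_prod]; exact ⟨h1 _, h2 _⟩)
  have hfB : ∀ n, n ∈ (omega : M) → ∃ x, x ∈ B ∧ ∃ y, y ∈ B ∧ ap f n = opair x y := by
    intro n hn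
    have := hf.ap_mem hn
    rwa [mem_prod] at this
  have he1 : ∀ n, n ∈ (omega : M) → fst (ap f n) ∈ B := by
    intro n hn
    obtain ⟨x, hx, y, hy, e⟩ := hfB n hn
    rw [e, fst_opair]; exact hx
  have ho1 : ∀ n, n ∈ (omega : M) → snd (ap f n) ∈ B := by
    intro n hn
    obtain ⟨x, hx, y, hy, e⟩ := hfB n hn
    rw [e, snd_opair]; exact hy
  set e := mkf omega B (fun n => fst (ap f n)) with he
  set o := mkf omega B (fun n => snd (ap f n)) with ho
  have hef : Fun e omega B := mkf_fun he1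
  have hof : Fun o omega B := mkf_fun ho1
  have hea : ∀ n, n ∈ (omega : M) → ap e n = fst (ap f n) := fun n hn => ap_mkf he1 hn
  have hoa : ∀ n, n ∈ (omega : M) → ap o n = snd (ap f n) := fun n hn => ap_mkf ho1 hn
  have hre : ∀ n, n ∈ (omega : M) → fs (res f n) = res e n := by
    intro n hn
    apply ZF.ext
    intro z
    rw [hfs]
    simp only [mem_sep]
    rw [mem_res]
    constructor
    · rintro ⟨_, i, x, y, rfl, h⟩
      rw [opair_mem_res, hf.opair_iff] at h
      obtain ⟨⟨hi, e1⟩, hin⟩ := h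
      refine ⟨?_, i, hin, x, rfl⟩
      rw [hef.opair_iff, hea i hi, ← e1, fst_opair]
      exact ⟨hi, rfl⟩
    · rintro ⟨hz, i, hin, x, rfl⟩
      rw [hef.opair_iff] at hz
      obtain ⟨hi, rfl⟩ := hz
      refine ⟨?_, i, ap e i, ap o i, rfl, ?_⟩
      · rw [opair_mem_prod]; exact ⟨hi, hef.ap_mem hi⟩
      · rw [opair_mem_res, hf.opair_iff]
        refine ⟨⟨hi, ?_⟩, hin⟩
        obtain ⟨x, hx, y, hy, e1⟩ := hfB i hi
        rw [hea i hi, hoa i hi, e1, fst_opair, snd_opair]
  have hro : ∀ n, n ∈ (omega : M) → ss (res f n) = res o n := by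
    intro n hn
    apply ZF.ext
    intro z
    rw [hss]
    simp only [mem_sep]
    rw [mem_res]
    constructor
    · rintro ⟨_, i, x, y, rfl, h⟩
      rw [opair_mem_res, hf.opair_iff] at h
      obtain ⟨⟨hi, e1⟩, hin⟩ := h
      refine ⟨?_, i, hin, y, rfl⟩
      rw [hof.opair_iff, hoa i hi, ← e1, snd_opair]
      exact ⟨hi, rfl⟩
    · rintro ⟨hz, i, hin, y, rfl⟩
      rw [hof.opair_iff] at hz
      obtain ⟨hi, rfl⟩ := hz
      refine ⟨?_, i, ap e i, ap o i, rfl, ?_⟩
      · rw [opair_mem_prod]; exact ⟨hi, hof.ap_mem hi⟩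
      · rw [opair_mem_res, hf.opair_iff]
        refine ⟨⟨hi, ?_⟩, hin⟩
        obtain ⟨x, hx, y, hy, e1⟩ := hfB i hi
        rw [hea i hi, hoa i hi, e1, fst_opair, snd_opair]
  refine ⟨e, o, hef, hof, fun n hn => ?_⟩
  have hn' := hf' n hn
  rw [hG] at hn'
  simp only at hn'
  rw [hro n hn, hre n hn, dom_eq hn (res_fun hf hn)] at hn'
  have h3 : ap e n = G1 (res o n) := by rw [hea n hn, hn', fst_opair]
  refine ⟨h3, ?_⟩
  rw [hoa n hn, hn', snd_opair, res_succ hef hn, h3]

end Pool.Agent.PAG
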